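import Mathlib
import Pool.Prelude.Def_F_458e953d

/-!
# Definitions for the Bodirsky–Pinsker conjecture

Relational structures over finite signatures, homogeneity, finite boundedness, reducts,
primitive positive constructions of `K₃`, and the constraint satisfaction problem as a decision
problem on strings.
-/

namespace Pool.Agent.H68.BP

/-- A finite relational signature: `m` relation symbols, the symbol `l` has arity `ar l`. -/
structure Sig where
  m : ℕ
  ar : Fin m → ℕ

/-- A relational structure with domain `A` over the signature `σ`. -/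
def Str (σ : Sig) (A : Type) : Type := (l : Fin σ.m) → (Fin (σ.ar l) → A) → Prop

variable {σ τ : Sig} {A B X Y : Type}

/-- `f` is a homomorphism. -/
def IsHom (𝕏 : Str σ X) (𝔸 : Str σ A) (f : X → A) : Prop :=
  ∀ l x, 𝕏 l x → 𝔸 l (fun i => f (x i))

/-- `f` is an embedding. -/
def IsEmb (𝕏 : Str σ X) (𝔸 : Str σ A) (f : X → A) : Prop :=
  Function.Injective f ∧ ∀ l x, 𝕏 l x ↔ 𝔸 l (fun i => f (x i))

/-- `𝕏` embeds into `𝔸`. -/
def Embeds (𝕏 : Str σ X) (𝔸 : Str σ A) : Prop := ∃ f, IsEmb 𝕏 𝔸 f

/-- The bijection `g` is an automorphism. -/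
def IsAut (𝔸 : Str σ A) (g : A ≃ A) : Prop := ∀ l x, 𝔸 l x ↔ 𝔸 l (fun i => g (x i))

/-- The structure `𝔹` is homogeneous: each isomorphism between finite substructures (that is, each
embedding of a finite substructure into `𝔹`) extends to an automorphism. -/
def Homogeneous (𝔹 : Str τ B) : Prop :=
  ∀ (F : Finset B) (f : F → B), IsEmb (fun l (x : Fin (τ.ar l) → F) => 𝔹 l (fun i => (x i : B))) 𝔹 f →
    ∃ g : B ≃ B, IsAut 𝔹 g ∧ ∀ x : F, g x = f x

/-- The structure `𝔹` is finitely bounded: for some finite list `N` of finite structures, a finite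
structure embeds into `𝔹` if and only if no member of `N` embeds into it. -/
def FinitelyBounded (𝔹 : Str τ B) : Prop :=
  ∃ N : List (Σ n : ℕ, Str τ (Fin n)), ∀ (n : ℕ) (𝕏 : Str τ (Fin n)),
    Embeds 𝕏 𝔹 ↔ ∀ 𝕐 ∈ N, ¬ Embeds 𝕐.2 𝕏

/-- `𝔸` is a reduct of `𝔹`: it arises by discarding some of the relations (the symbols of `σ` are
identified with some of the symbols of `τ` by an injective map respecting arities). -/
def IsReduct (𝔸 : Str σ B) (𝔹 : Str τ B) : Prop :=
  ∃ ι : Fin σ.m → Fin τ.m, Function.Injective ι ∧ ∀ l, ∃ h : τ.ar (ι l) = σ.ar l,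
    ∀ x : Fin (σ.ar l) → B, 𝔸 l x ↔ 𝔹 (ι l) (fun i => x (Fin.cast h i))

/-- Atomic formulas with variables from `X`: equalities and relation symbols applied to
variables. -/
inductive Atom (σ : Sig) (X : Type) : Type
  | eq (x y : X) : Atom σ X
  | rel (l : Fin σ.m) (t : Fin (σ.ar l) → X) : Atom σ X

/-- Truth of an atomic formula under an assignment. -/
def Atom.Holds (𝔸 : Str σ A) (v : X → A) : Atom σ X → Prop
  | .eq x y => v x = v y
  | .rel l t => 𝔸 l (fun i => v (t i))

/-- Primitive positive definability of a set of tuples indexed by `I`: for some finite list `φ` of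
atomic formulas in the variables indexed by `I` and the variables `y 0, …, y (q - 1)`, the set
consists of all `x` for which there are values of `y` making all formulas of `φ` true. -/
def PPDefinable (𝔸 : Str σ A) {I : Type} (S : Set (I → A)) : Prop :=
  ∃ (q : ℕ) (φ : List (Atom σ (I ⊕ Fin q))),
    ∀ x : I → A, x ∈ S ↔ ∃ y : Fin q → A, ∀ a ∈ φ, a.Holds 𝔸 (Sum.elim x y)

/-- `𝔸` pp-constructs `K₃`: for some `n ≥ 1` there is a binary relation `E` on `A ^ n` which,
viewed as a `2n`-ary relation on `A`, is primitive positive definable in `𝔸`, such that the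
digraph `(A ^ n; E)` is homomorphically equivalent to `K₃`, the structure `({0, 1, 2}; ≠)`. -/
def PPConstructsK3 (𝔸 : Str σ A) : Prop :=
  ∃ (n : ℕ) (E : (Fin n → A) → (Fin n → A) → Prop), 1 ≤ n ∧
    PPDefinable 𝔸 {z : Fin n ⊕ Fin n → A | E (fun i => z (Sum.inl i)) (fun i => z (Sum.inr i))} ∧
    (∃ t : Fin 3 → (Fin n → A), ∀ a b, a ≠ b → E (t a) (t b)) ∧
    (∃ c : (Fin n → A) → Fin 3, ∀ u v, E u v → c u ≠ c v)

/-- The largest arity. -/
def Sig.width (σ : Sig) : ℕ := Finset.univ.sup σ.ar

/-- The structure on `{0, …, n - 1}` given by a list of constraints: the list `c` with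
`c = [l, x₀, x₁, …]` says that the tuple `(x₀, x₁, …)` is in the relation `l` (its length is the
arity of `l`, and the remaining entries of `c` are ignored). -/
def strOf (σ : Sig) (n : ℕ) (L : List (List ℕ)) : Str σ (Fin n) :=
  fun l x => ∃ c ∈ L, c.getD 0 0 = (l : ℕ) ∧ ∀ i : Fin (σ.ar l), c.getD (i + 1) 0 = (x i : ℕ)

/-- The code of such a structure: the number `n` and then the entries of the constraints, where
each number `x` is written as `x` ones and a zero. -/
def code (n : ℕ) (L : List (List ℕ)) : List Bool :=
  (n :: L.flatten).flatMap (fun x => List.replicate x true ++ [false])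

open Classical in
/-- The constraint satisfaction problem of `𝔸`: is the input string the code of a finite structure
with a homomorphism to `𝔸`?  (All constraints are written with the same number of entries, one
more than the largest arity.) -/
noncomputable def CSP (𝔸 : Str σ A) : N68a2faeb.DecisionProblem :=
  fun w => decide (∃ n L, (∀ c ∈ L, c.length = σ.width + 1) ∧ code n L = w ∧
    ∃ f : Fin n → A, IsHom (strOf σ n L) 𝔸 f)

/-- The Bodirsky–Pinsker conjecture: if `𝔸` is a reduct of a countable finitely bounded homogeneous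
structure `𝔹` and `𝔸` does not pp-construct `K₃`, then `CSP(𝔸)` is solvable in polynomial time. -/
def BodirskyPinsker : Prop :=
  ∀ (σ τ : Sig) (D : Type) [Countable D] [Nonempty D] (𝔸 : Str σ D) (𝔹 : Str τ D),
    Homogeneous 𝔹 → FinitelyBounded 𝔹 → IsReduct 𝔸 𝔹 → ¬ PPConstructsK3 𝔸 →
      CSP 𝔸 ∈ N68a2faeb.P

/-- The automorphism group of `𝔹` is `t`-transitive: it acts transitively on the injective
`t`-tuples. -/
def Transitive (t : ℕ) (𝔹 : Str τ B) : Prop :=
  ∀ x y : Fin t → B, Function.Injective x → Function.Injective y →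
    ∃ g : B ≃ B, IsAut 𝔹 g ∧ ∀ i, g (x i) = y i

/-- `𝔹` has no algebraicity: for every finite set `F` and every `d` outside of `F` the orbit of `d`
under the automorphisms fixing each element of `F` is infinite. -/
def NoAlgebraicity (𝔹 : Str τ B) : Prop :=
  ∀ (F : Finset B) (d : B), d ∉ F →
    Set.Infinite {e | ∃ g : B ≃ B, IsAut 𝔹 g ∧ (∀ x ∈ F, g x = x) ∧ g d = e}

/-- The signature with a single relation symbol of arity `k`. -/
def Sig.single (k : ℕ) : Sig := ⟨1, fun _ => k⟩

/-- The structure with the single relation `S`. -/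
def single {k : ℕ} (S : (Fin k → A) → Prop) : Str (Sig.single k) A := fun _ x => S x

/-- The Bodirsky–Pinsker conjecture for the following templates: structures `(D; S)` with a single
relation `S`, which is `(t + 2)`-ary and contains only injective tuples, that are reducts of
countable finitely bounded homogeneous structures with a `t`-transitive automorphism group and
without algebraicity. -/
def BodirskyPinskerTransitive (t : ℕ) : Prop :=
  ∀ (τ : Sig) (D : Type) [Countable D] [Nonempty D] (S : (Fin (t + 2) → D) → Prop)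
    (𝔹 : Str τ D), Homogeneous 𝔹 → FinitelyBounded 𝔹 → IsReduct (single S) 𝔹 →
      Transitive t 𝔹 → NoAlgebraicity 𝔹 → (∀ x, S x → Function.Injective x) →
        ¬ PPConstructsK3 (single S) → CSP (single S) ∈ N68a2faeb.P

end Pool.Agent.H68.BP
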